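import Pool.Agent.W973.CES.Defs

/-! Project CES, the validity test. -/

set_option autoImplicit false

namespace Pool.Agent.W881.CES

open Pool.Agent.W973.CES Pool.Agent.NPC

theorem perm_iff (n : ℕ) (l : List ℕ) :
    (l.length = n ∧ ∀ i < n, i ∈ l) ↔ l.Perm (List.range n) := by
  constructor
  · rintro ⟨h1, h2⟩
    have hs : (List.range n).Subperm l := by
      apply List.Nodup.subperm (List.nodup_range)
      intro i hi
      exact h2 i (List.mem_range.1 hi)
    exact (hs.perm_of_length_le (by rw [h1, List.length_range])).symm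
  · intro h
    refine ⟨by rw [h.length_eq, List.length_range], fun i hi => ?_⟩
    exact h.symm.subset (List.mem_range.2 hi)

theorem valBT : S_VALB := by
  intro I
  unfold Pool.Agent.W973.CES.valB Pool.Agent.W973.CES.Valid
  rw [Bool.and_eq_true, decide_eq_true_iff, List.all_eq_true]
  constructor
  · rintro ⟨h1, h2⟩
    have h3 : ∀ l ∈ I.1 ++ I.2, l.Perm (List.range I.1.length) := by
      intro l hl
      have h4 := h2 l hl
      rw [Bool.and_eq_true, decide_eq_true_iff, List.all_eq_true] at h4
      refine (perm_iff _ l).1 ⟨h4.1, fun i hi => ?_⟩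
      have h5 := h4.2 i (List.mem_range.2 hi)
      exact of_decide_eq_true h5
    exact ⟨h1, fun l hl => h3 l (List.mem_append_left _ hl),
      fun l hl => h3 l (List.mem_append_right _ hl)⟩
  · rintro ⟨h1, h2, h3⟩
    refine ⟨h1, fun l hl => ?_⟩
    have h4 : l.Perm (List.range I.1.length) := by
      rcases List.mem_append.1 hl with h | h
      · exact h2 l h
      · exact h3 l h
    obtain ⟨h5, h6⟩ := (perm_iff _ l).2 h4
    rw [Bool.and_eq_true, decide_eq_true_iff, List.all_eq_true]
    refine ⟨h5, fun i hi => ?_⟩
    exact decide_eq_true (h6 i (List.mem_range.1 hi))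

end Pool.Agent.W881.CES
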